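import Pool.Agent.T3H29.EN.Rt

/-!
# Random digits and the powers of `e`

Let `X = ∑ X_j / (b_0 b_1 ⋯ b_j)` be a random series with bounded integers `b_j ≥ 2` and independent bounded
integer digits `X_j`, uniformly nondegenerate; for instance `X` is a random point of the Cantor set (`b_j = 3`,
`X_j = 0` or `2` with probabilities `1/2`), or of any other set of numbers with restricted digits, or a number whose
digits are chosen with arbitrary weights. The distribution of `X` can be singular, of arbitrarily small dimension,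
and its Fourier transform does not tend to zero in general.

Almost surely, for every positive rational `r` and all real polynomials `P` the sequence `(X e ^ (r n) + P(n))` is
equidistributed modulo one; the discrepancy is at most `exp (-c (log N) ^ (1 / 3))`, uniformly in all `P` of bounded
degree, along any given set `S` of integers (for instance the primes). This is the theorem of Cassels and Schmidt
(almost all points of the Cantor set are normal to every base which is not a power of `3`) for the transcendental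
bases `e ^ r`.

Proof: the characteristic function of `X` is small at every real number `t` that is not close to an integer after
division by `b_0 ⋯ b_j`, for many `j`. For `t = h (e ^ n - e ^ m) = h (1 - e ^ (-l)) e ^ n`, `l = n - m`, this is
shown for all `l` and almost all `n` by the theorem `AlmostAllExponents` of the starting files for the numbers
`a e ^ n`, with arbitrary real numbers `a`. Then the theorem follows in the manner of Davenport, Erdős and LeVeque,
with the inequality of van der Corput for the polynomials.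
-/

set_option autoImplicit false

namespace Pool.Agent.Results.MP_9056e9_nt.CantorNormalBaseE

open Finset MeasureTheory ProbabilityTheory Filter Topology
open scoped Classical

universe u

/-- the number `∑ X_j / (b_0 b_1 ⋯ b_j)` -/
noncomputable def digitSeries {Ω : Type u} (b : ℕ → ℕ) (X : ℕ → Ω → ℤ) (ω : Ω) : ℝ :=
  ∑' j : ℕ, (X j ω : ℝ) / ∏ i ∈ range (j + 1), (b i : ℝ)

/-- the number of the `n ≤ N`, `n ≥ 1`, in `S` with fractional part of `f n` in `[s, t)` -/
noncomputable def count (S : Set ℕ) (f : ℕ → ℝ) (s t : ℝ) (N : ℕ) : ℕ :=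
  ((Icc 1 N).filter (fun n : ℕ => n ∈ S ∧ Int.fract (f n) ∈ Set.Ico s t)).card

/-- the number of the `n ≤ N`, `n ≥ 1`, in `S` -/
noncomputable def size (S : Set ℕ) (N : ℕ) : ℕ := ((Icc 1 N).filter (fun n : ℕ => n ∈ S)).card

/-- **Almost every number, for every nondegenerate digit measure, is normal to the bases `e ^ r`.**
(1) With a rate, uniformly in the polynomials of degree at most `D`, along any set `S`.
(2) Almost surely for all `r` and all polynomials: the property of the problem. -/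
theorem result (B : ℕ) (hB : 2 ≤ B) (κ : ℝ) (hκ : 0 < κ) :
    (∀ (D : ℕ) (r : ℚ), 0 < r → ∃ c : ℝ, 0 < c ∧
      ∀ (Ω : Type u) [MeasurableSpace Ω] (μ : Measure Ω) [IsProbabilityMeasure μ]
        (b : ℕ → ℕ) (X : ℕ → Ω → ℤ), (∀ j, 2 ≤ b j ∧ b j ≤ B) → (∀ j, Measurable (X j)) → iIndepFun X μ →
        (∀ j ω, |X j ω| ≤ B) → (∀ j (v : ℤ), μ.real {ω | X j ω = v} ≤ 1 - κ) →
        ∀ α : ℝ, α ≠ 0 → ∀ S : Set ℕ, ∀ᵐ ω ∂μ, ∀ᶠ N : ℕ in atTop,
          ∀ P : Polynomial ℝ, P.natDegree ≤ D → ∀ s t : ℝ, 0 ≤ s → s ≤ t → t ≤ 1 →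
            |(count S (fun n => α * digitSeries b X ω * Real.exp (r * n) + P.eval (n : ℝ)) s t N : ℝ) -
              (t - s) * size S N| ≤
              N * Real.exp (-(c * (Real.log N) ^ (1 / 3 : ℝ)))) ∧
    (∀ (Ω : Type u) [MeasurableSpace Ω] (μ : Measure Ω) [IsProbabilityMeasure μ]
        (b : ℕ → ℕ) (X : ℕ → Ω → ℤ), (∀ j, 2 ≤ b j ∧ b j ≤ B) → (∀ j, Measurable (X j)) → iIndepFun X μ →
        (∀ j ω, |X j ω| ≤ B) → (∀ j (v : ℤ), μ.real {ω | X j ω = v} ≤ 1 - κ) →
        ∀ α : ℝ, α ≠ 0 → ∀ᵐ ω ∂μ, ∀ r : ℚ, 0 < r → ∀ P : Polynomial ℝ, ∀ s t : ℝ, 0 ≤ s → s < t → t ≤ 1 →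
          Tendsto (fun N : ℕ => (count Set.univ
            (fun n => α * digitSeries b X ω * Real.exp (r * n) + P.eval (n : ℝ)) s t N : ℝ) / N)
            atTop (𝓝 (t - s))) := by
  have hB1 : 1 ≤ B := by omega
  have hκ' : 0 < min κ 1 := lt_min hκ one_pos
  have first : ∀ (D : ℕ) (r : ℚ), 0 < r → ∃ c : ℝ, 0 < c ∧
      ∀ (Ω : Type u) [MeasurableSpace Ω] (μ : Measure Ω) [IsProbabilityMeasure μ]
        (b : ℕ → ℕ) (X : ℕ → Ω → ℤ), (∀ j, 2 ≤ b j ∧ b j ≤ B) → (∀ j, Measurable (X j)) → iIndepFun X μ →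
        (∀ j ω, |X j ω| ≤ B) → (∀ j (v : ℤ), μ.real {ω | X j ω = v} ≤ 1 - κ) →
        ∀ α : ℝ, α ≠ 0 → ∀ S : Set ℕ, ∀ᵐ ω ∂μ, ∀ᶠ N : ℕ in atTop,
          ∀ P : Polynomial ℝ, P.natDegree ≤ D → ∀ s t : ℝ, 0 ≤ s → s ≤ t → t ≤ 1 →
            |(count S (fun n => α * digitSeries b X ω * Real.exp (r * n) + P.eval (n : ℝ)) s t N : ℝ) -
              (t - s) * size S N| ≤
              N * Real.exp (-(c * (Real.log N) ^ (1 / 3 : ℝ))) := by
    intro D r hr
    obtain ⟨p, hp⟩ : ∃ p : ℕ, (p : ℤ) = r.num := ⟨r.num.toNat, Int.toNat_of_nonneg (Rat.num_pos.2 hr).le⟩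
    have hp1 : 1 ≤ p := by
      have := Rat.num_pos.2 hr
      omega
    have hrpq : (r : ℝ) = (p : ℝ) / (r.den : ℝ) := by
      have h1 : (r : ℝ) = (r.num : ℝ) / (r.den : ℝ) := by
        exact_mod_cast (Rat.num_div_den r).symm
      rw [h1, ← hp]
      simp
    obtain ⟨c, hc, h⟩ := T3H29.EN.disc_all.{u} B hB1 (min κ 1) hκ' (min_le_right _ _) D p r.den hp1 r.den_pos
    refine ⟨c, hc, ?_⟩
    intro Ω _ μ _ b X hb hX hind hbd hnd α hα S
    have hdig : T3H29.EN.Dig μ B (min κ 1) b X :=
      ⟨hb, hX, hind, hbd, fun j v => (hnd j v).trans (by have := min_le_left κ 1; linarith)⟩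
    filter_upwards [h Ω μ b X hdig α hα S] with ω hω
    filter_upwards [hω] with N hN
    intro P hP s t hs hst ht
    have h1 := hN P hP s t hs hst ht
    unfold count size
    rw [hrpq]
    exact h1
  refine ⟨first, ?_⟩
  intro Ω _ μ _ b X hb hX hind hbd hnd α hα
  have hall : ∀ᵐ ω ∂μ, ∀ (D : ℕ) (r : ℚ), 0 < r → ∃ c : ℝ, 0 < c ∧ ∀ᶠ N : ℕ in atTop,
      ∀ P : Polynomial ℝ, P.natDegree ≤ D → ∀ s t : ℝ, 0 ≤ s → s ≤ t → t ≤ 1 →
            |(count Set.univ (fun n => α * digitSeries b X ω * Real.exp (r * n) + P.eval (n : ℝ)) s t N : ℝ) -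
              (t - s) * size Set.univ N| ≤
              N * Real.exp (-(c * (Real.log N) ^ (1 / 3 : ℝ))) := by
    rw [ae_all_iff]
    intro D
    rw [ae_all_iff]
    intro r
    by_cases hr : 0 < r
    · obtain ⟨c, hc, h⟩ := first D r hr
      filter_upwards [h Ω μ b X hb hX hind hbd hnd α hα Set.univ] with ω hω
      intro _
      exact ⟨c, hc, hω⟩
    · exact Eventually.of_forall fun ω h => absurd h hr
  filter_upwards [hall] with ω hω
  intro r hr P s t hs hst ht
  obtain ⟨c, hc, h⟩ := hω P.natDegree r hr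
  have hlim : Tendsto (fun N : ℕ => Real.exp (-(c * (Real.log N) ^ (1 / 3 : ℝ)))) atTop (𝓝 0) := by
    have h1 := T3H29.EN.cl_tendsto
    have h2 : Tendsto (fun N : ℕ => c * T3H29.EN.cl (N : ℝ)) atTop atTop := h1.const_mul_atTop hc
    exact Real.tendsto_exp_neg_atTop_nhds_zero.comp h2
  rw [tendsto_iff_norm_sub_tendsto_zero]
  apply squeeze_zero' (Eventually.of_forall fun _ => norm_nonneg _) _ hlim
  filter_upwards [h, eventually_ge_atTop 1] with N hN hN1
  have h1 := hN P le_rfl s t hs hst.le ht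
  have hN0 : (0 : ℝ) < N := by exact_mod_cast hN1
  have h2 : (size Set.univ N : ℝ) = N := by
    unfold size
    simp
  rw [h2] at h1
  rw [Real.norm_eq_abs]
  have h3 : (count Set.univ (fun n => α * digitSeries b X ω * Real.exp (r * n) + P.eval (n : ℝ)) s t N : ℝ) / N -
      (t - s) = ((count Set.univ (fun n => α * digitSeries b X ω * Real.exp (r * n) + P.eval (n : ℝ)) s t N : ℝ) -
      (t - s) * N) / N := by
    field_simp
  rw [h3, abs_div, abs_of_pos hN0, div_le_iff₀ hN0]
  linarith

end Pool.Agent.Results.MP_9056e9_nt.CantorNormalBaseE
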