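import Pool.Agent.T3H29.HR.Gen

/-!
# Host's theorem for real bases, in particular for the bases `e` and `π`

Let `b ≥ 2` and let `μ` be a probability measure on `[0, 1)` which is invariant and ergodic for `x ↦ b x` modulo
one and has positive entropy. Let `β > 1` be a real number, no power of which is a power of `b`. Then for `μ`-almost
every `x` the sequence `(β ^ n x)` is equidistributed modulo one. For integers `β` prime to `b` this is Host's
theorem (1995), for all integers `β` it is due to Hochman and Shmerkin (2015), who also treat Pisot numbers `β` (in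
the sense of the `β`-expansions). Here `β` is an arbitrary real number, for instance `e` and `π`. More generally
`β ^ n x` can be replaced by `a_n x + c_n + Q(n)` with real numbers `a_n ∼ t β ^ n`, arbitrary real numbers `c_n` and
a real polynomial `Q` which may depend on `x`, and `n` may be restricted to an arbitrary set `S` of integers. In
particular, for every real `y` and almost all `x` the sequences `((x + y) e ^ n)` and `((x + y) π ^ n)` are
equidistributed; the question of the problem is the case `x + y = 1`.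

Proof (`Pool/Agent/T3H29/HR`): pass to the natural extension `P`, a shift invariant measure on the two-sided
sequences of digits. Up to a sum of nearly orthogonal functions, which satisfies a law of large numbers for every
choice of `a_n ∼ t β ^ n` and bounded weights, `e(a_n x)` is bounded by the absolute value of the characteristic
function of the conditional distribution of the digits after the place `⌊n θ + s⌋ - K` given the digits before it, at
a number of the order `b ^ K` (`θ = log β / log b`, which is irrational). The conditional distribution has no atoms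
since the entropy is positive, therefore by Wiener's theorem these quantities are small in mean for large `K`; and a
maximal inequality for the time `θ` map of the suspension of the shift, on every fibre, passes to almost every point.
The polynomials come from the inequality of van der Corput. (helper29, with tasks proved by helper18 and helper45)
-/

set_option autoImplicit false

namespace Pool.Agent.Results.MP_9056e9_nt.HostRealBases

open Finset MeasureTheory Filter Topology
open scoped Classical

/-- the entropy of the partition of `[0, 1)` into the intervals `[k / b ^ n, (k + 1) / b ^ n)` -/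
noncomputable def entropy (b : ℕ) (μ : Measure ℝ) (n : ℕ) : ℝ :=
  ∑ k ∈ range (b ^ n), Real.negMulLog (μ.real (Set.Ico ((k : ℝ) / (b : ℝ) ^ n) (((k : ℝ) + 1) / (b : ℝ) ^ n)))

/-- the number of the `n ≤ N`, `n ≥ 1`, in `S` with fractional part of `f n` in `[u, v)` -/
noncomputable def count (S : Set ℕ) (f : ℕ → ℝ) (u v : ℝ) (N : ℕ) : ℕ :=
  ((Icc 1 N).filter (fun n : ℕ => n ∈ S ∧ Int.fract (f n) ∈ Set.Ico u v)).card

/-- the number of the `n ≤ N`, `n ≥ 1`, in `S` -/
noncomputable def size (S : Set ℕ) (N : ℕ) : ℕ := ((Icc 1 N).filter (fun n : ℕ => n ∈ S)).card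

/-- `f 1, f 2, …` is equidistributed modulo one -/
def Equidistributed (f : ℕ → ℝ) : Prop :=
  ∀ u v : ℝ, 0 ≤ u → u < v → v ≤ 1 →
    Tendsto (fun N : ℕ => (count Set.univ f u v N : ℝ) / N) atTop (𝓝 (v - u))

/-- **Host's theorem for real bases.** Let `μ` be an ergodic invariant probability measure of positive entropy of
`x ↦ b x` modulo one.
(1) Let `β > 1` be real and multiplicatively independent of `b`, `a_n ∼ t β ^ n` with `t ≠ 0`, `c_n` arbitrary real
numbers and `S` a set of positive integers. Then for almost all `x` and all real polynomials `Q` the sequence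
`a_n x + c_n + Q(n)` is equidistributed modulo one along `S`.
(2) For all real `y`, `t ≠ 0`, for almost all `x` the sequences `t (x + y) e ^ (r n) + Q(n)` and
`t (x + y) π ^ (r n) + Q(n)` are equidistributed modulo one for all rational `r > 0` and all real polynomials `Q`. -/
theorem result (b : ℕ) (hb : 2 ≤ b) (μ : Measure ℝ) [IsProbabilityMeasure μ]
    (hμ : Ergodic (fun x : ℝ => Int.fract ((b : ℝ) * x)) μ)
    (h : ℝ) (hh : 0 < h) (hent : ∀ n : ℕ, h * n ≤ entropy b μ n) :
    (∀ β : ℝ, 1 < β → (∀ m k : ℕ, 1 ≤ m → β ^ m ≠ (b : ℝ) ^ k) → ∀ t : ℝ, t ≠ 0 → ∀ a c : ℕ → ℝ,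
      Tendsto (fun n : ℕ => a n / β ^ n) atTop (𝓝 t) → ∀ S : Set ℕ,
      ∀ᵐ x ∂μ, ∀ Q : Polynomial ℝ, ∀ u v : ℝ, 0 ≤ u → u ≤ v → v ≤ 1 →
        Tendsto (fun N : ℕ => ((count S (fun n => a n * x + c n + Q.eval (n : ℝ)) u v N : ℝ) -
          (v - u) * size S N) / N) atTop (𝓝 0)) ∧
    (∀ y t : ℝ, t ≠ 0 → ∀ᵐ x ∂μ, ∀ r : ℚ, 0 < r → ∀ Q : Polynomial ℝ,
      Equidistributed (fun n => t * (x + y) * Real.exp (r * n) + Q.eval (n : ℝ)) ∧
      Equidistributed (fun n => t * (x + y) * Real.pi ^ ((r : ℝ) * n) + Q.eval (n : ℝ))) := by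
  have first : ∀ β : ℝ, 1 < β → (∀ m k : ℕ, 1 ≤ m → β ^ m ≠ (b : ℝ) ^ k) → ∀ t : ℝ, t ≠ 0 → ∀ a c : ℕ → ℝ,
      Tendsto (fun n : ℕ => a n / β ^ n) atTop (𝓝 t) → ∀ S : Set ℕ,
      ∀ᵐ x ∂μ, ∀ Q : Polynomial ℝ, ∀ u v : ℝ, 0 ≤ u → u ≤ v → v ≤ 1 →
        Tendsto (fun N : ℕ => ((count S (fun n => a n * x + c n + Q.eval (n : ℝ)) u v N : ℝ) -
          (v - u) * size S N) / N) atTop (𝓝 0) := by
    intro β hβ hind t ht a c ha S
    exact T3H29.HR.main b hb μ hμ h hh hent β hβ hind t ht a c ha S
  refine ⟨first, ?_⟩
  -- equidistribution in the sense of the problem for a single base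
  have second : ∀ β : ℝ, 1 < β → (∀ m k : ℕ, 1 ≤ m → β ^ m ≠ (b : ℝ) ^ k) → ∀ y t : ℝ, t ≠ 0 →
      ∀ᵐ x ∂μ, ∀ Q : Polynomial ℝ, Equidistributed (fun n => t * (x + y) * β ^ n + Q.eval (n : ℝ)) := by
    intro β hβ hind y t ht
    have hβ0 : ∀ n : ℕ, β ^ n ≠ 0 := fun n => (pow_pos (by linarith) n).ne'
    have h1 : Tendsto (fun n : ℕ => (fun n : ℕ => t * β ^ n) n / β ^ n) atTop (𝓝 t) := by
      refine tendsto_const_nhds.congr fun n => ?_
      have := hβ0 n
      field_simp
    filter_upwards [first β hβ hind t ht (fun n => t * β ^ n) (fun n => t * y * β ^ n) h1 Set.univ] with x hx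
    intro Q u v hu huv hv
    have h2 := hx Q u v hu huv.le hv
    have h3 : Tendsto (fun N : ℕ => ((count Set.univ (fun n => (fun n : ℕ => t * β ^ n) n * x +
        (fun n : ℕ => t * y * β ^ n) n + Q.eval (n : ℝ)) u v N : ℝ) - (v - u) * size Set.univ N) / N + (v - u))
        atTop (𝓝 (0 + (v - u))) := h2.add_const _
    rw [zero_add] at h3
    refine h3.congr' ?_
    filter_upwards [eventually_gt_atTop 0] with N hN
    have hN0 : (N : ℝ) ≠ 0 := by exact_mod_cast hN.ne'
    have h4 : (size Set.univ N : ℝ) = N := by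
      unfold size
      simp
    have h5 : (fun n : ℕ => (fun n : ℕ => t * β ^ n) n * x + (fun n : ℕ => t * y * β ^ n) n + Q.eval (n : ℝ)) =
        fun n : ℕ => t * (x + y) * β ^ n + Q.eval (n : ℝ) := by
      funext n
      ring
    rw [h4, h5]
    field_simp
    ring
  intro y t ht
  have hall : ∀ᵐ x ∂μ, ∀ r : ℚ, 0 < r →
      (∀ Q : Polynomial ℝ, Equidistributed (fun n => t * (x + y) * Real.exp r ^ n + Q.eval (n : ℝ))) ∧
      (∀ Q : Polynomial ℝ, Equidistributed (fun n => t * (x + y) * (Real.pi ^ (r : ℝ)) ^ n + Q.eval (n : ℝ))) := by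
    rw [ae_all_iff]
    intro r
    by_cases hr : 0 < r
    · have hr0 : (0 : ℝ) < r := by exact_mod_cast hr
      have hpi : 1 < Real.pi := by linarith [Real.pi_gt_three]
      filter_upwards [second (Real.exp r) (Real.one_lt_exp_iff.2 hr0) (T3H29.HR.t_IND.2.1 b r hb hr) y t ht,
        second (Real.pi ^ (r : ℝ)) (Real.one_lt_rpow hpi hr0) (T3H29.HR.t_IND.2.2 b r hb hr) y t ht] with x h1 h2 _
      exact ⟨h1, h2⟩
    · exact Eventually.of_forall fun x h1 => absurd h1 hr
  filter_upwards [hall] with x hx r hr Q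
  obtain ⟨h1, h2⟩ := hx r hr
  constructor
  · have h3 : (fun n : ℕ => t * (x + y) * Real.exp (r * n) + Q.eval (n : ℝ)) =
        fun n : ℕ => t * (x + y) * Real.exp r ^ n + Q.eval (n : ℝ) := by
      funext n
      rw [← Real.exp_nat_mul, mul_comm (n : ℝ) (r : ℝ)]
    rw [h3]
    exact h1 Q
  · have h3 : (fun n : ℕ => t * (x + y) * Real.pi ^ ((r : ℝ) * n) + Q.eval (n : ℝ)) =
        fun n : ℕ => t * (x + y) * (Real.pi ^ (r : ℝ)) ^ n + Q.eval (n : ℝ) := by
      funext n
      rw [Real.rpow_mul Real.pi_pos.le, Real.rpow_natCast]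
    rw [h3]
    exact h2 Q

end Pool.Agent.Results.MP_9056e9_nt.HostRealBases
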