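import Pool.Agent.T3H29.HK.All

/-!
# Koksma's theorem for invariant measures of positive entropy

Koksma (1935): for Lebesgue almost every `x > 1` the sequence `(x ^ n)` is equidistributed modulo one. Let `b ≥ 2` and
let `μ` be a probability measure on `[0, 1)` which is invariant and ergodic for `x ↦ b x` modulo one and has positive
entropy. We prove the same for `μ`: for every real `y` and `μ`-almost all `x` with `x + y > 1` the sequence
`((x + y) ^ n)` is equidistributed modulo one, and even `(p(x + y) (x + y) ^ n + Q(n))` for all integer polynomials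
`p ≠ 0` and all real polynomials `Q` (so the powers are completely equidistributed, by Weyl's criterion). Similarly
for `(β ^ (n (x + y)))`, for instance `(e ^ (n (x + y)))`, and for all sequences of functions `f_n` with
`f_n'(x) ∼ n ^ τ r(x) g(x) ^ n` locally uniformly on an open set, where `g > 1`, `g' ≠ 0`, `r ≠ 0`, along arbitrary
sets of integers. The question of the problem is the case of `(x + y) ^ n` with `x + y = e`, `x + y = π`, respectively
`e ^ (n (x + y))` with `x + y = 1`. Before, such theorems were known for self-similar measures.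

Proof (`Pool/Agent/T3H29/HK`, with the tools of `HR` for the linear sequences of `HostRealBases`): pass to the natural
extension `P`, a shift invariant measure on the two-sided sequences of digits, and write `X` for the number with the
digits of the future. Let `V_n(x) = n log_b g(x) + τ log_b n + log_b |r(x)|`, `m_n = ⌊c n⌋` with a small `c > 0`, let
`x_j` be the number with the first `j` digits of `X`, and let `j_n = ⌊V_n(x_{m_n})⌋ - K`, a stopping index. By the mean
value theorem `f_n(X) = f_n(x_{j_n}) ± b ^ (K + {V_n(x_{m_n})}) X_{j_n} + o(1)`, where `X_j` is the number with the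
digits from `j + 1` on. The differences of `e(f_n(X))` and its conditional expectation given the digits up to `j_n`
satisfy a law of large numbers. Therefore the exponential sum is bounded by `o(N)` plus the sum of the absolute values
`Φ_K(σ^{j_n} ω, {v_n})` of the conditional characteristic functions, where `v_n = n θ + τ log_b n + s + o(1)` with
`θ = log_b g(X)`. By the theorem of Wiener and Wintner and an argument with the Fejér kernel, for almost all `ω`
the upper limit of the averages is at most `64 ∫∫ Φ_K(ω, u) dP du` for ALL slopes `θ > 0` outside a countable set which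
does not depend on `ω`; this tends to `0` as `K → ∞` by Wiener's theorem, since the conditional distributions have no
atoms (positive entropy). As `g' ≠ 0` and `μ` has no atoms, almost surely `θ = log_b g(X)` is not exceptional.
(helper29, with tasks proved by helper46, helper64, helper69 and helper71)
-/

set_option autoImplicit false

namespace Pool.Agent.Results.MP_9056e9_nt.KoksmaPositiveEntropy

open Finset MeasureTheory Filter Topology
open scoped Classical

/-- the entropy of the partition of `[0, 1)` into the intervals `[k / b ^ n, (k + 1) / b ^ n)` -/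
noncomputable def entropy (b : ℕ) (μ : Measure ℝ) (n : ℕ) : ℝ :=
  ∑ k ∈ range (b ^ n), Real.negMulLog (μ.real (Set.Ico ((k : ℝ) / (b : ℝ) ^ n) (((k : ℝ) + 1) / (b : ℝ) ^ n)))

/-- the number of the `n ≤ N`, `n ≥ 1`, in `S` with fractional part of `f n` in `[u, v)` -/
noncomputable def count (S : Set ℕ) (f : ℕ → ℝ) (u v : ℝ) (N : ℕ) : ℕ :=
  ((Icc 1 N).filter (fun n : ℕ => n ∈ S ∧ Int.fract (f n) ∈ Set.Ico u v)).card

/-- the number of the `n ≤ N`, `n ≥ 1`, in `S` -/
noncomputable def size (S : Set ℕ) (N : ℕ) : ℕ := ((Icc 1 N).filter (fun n : ℕ => n ∈ S)).card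

/-- `f 1, f 2, …` is equidistributed modulo one -/
def Equidistributed (f : ℕ → ℝ) : Prop :=
  ∀ u v : ℝ, 0 ≤ u → u < v → v ≤ 1 →
    Tendsto (fun N : ℕ => (count Set.univ f u v N : ℝ) / N) atTop (𝓝 (v - u))

/-- **Koksma's theorem for invariant measures of positive entropy.** Let `μ` be an ergodic invariant probability
measure of positive entropy of `x ↦ b x` modulo one.
(1) For all real `y`, for almost all `x` with `x + y > 1`, for all integer polynomials `p ≠ 0` and all real
polynomials `Q` the sequence `p(x + y) (x + y) ^ n + Q(n)` is equidistributed modulo one.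
(2) For all real `β > 1` and `y`, for almost all `x` with `x + y > 0` and all real polynomials `Q` the sequence
`β ^ (n (x + y)) + Q(n)` is equidistributed modulo one.
(3) Let `U` be open, `g` continuously differentiable on `U` with `g > 1`, `g' ≠ 0`, `r` continuous on `U` without
zeros, `f_n` differentiable on `U` with `f_n'(x) / (n ^ τ g(x) ^ n) → r(x)` locally uniformly on `U`, and `S` a set of
positive integers. Then for almost all `x ∈ U` and all real polynomials `Q` the sequence `f_n(x) + Q(n)` is
equidistributed modulo one along `S`. -/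
theorem result (b : ℕ) (hb : 2 ≤ b) (μ : Measure ℝ) [IsProbabilityMeasure μ]
    (hμ : Ergodic (fun x : ℝ => Int.fract ((b : ℝ) * x)) μ)
    (h : ℝ) (hh : 0 < h) (hent : ∀ n : ℕ, h * n ≤ entropy b μ n) :
    (∀ y : ℝ, ∀ᵐ x ∂μ, 1 < x + y → ∀ p : Polynomial ℤ, p ≠ 0 → ∀ Q : Polynomial ℝ,
      Equidistributed (fun n => Polynomial.aeval (x + y) p * (x + y) ^ n + Q.eval (n : ℝ))) ∧
    (∀ β y : ℝ, 1 < β → ∀ᵐ x ∂μ, 0 < x + y → ∀ Q : Polynomial ℝ,
      Equidistributed (fun n => β ^ ((n : ℝ) * (x + y)) + Q.eval (n : ℝ))) ∧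
    (∀ U : Set ℝ, IsOpen U → ∀ (g r : ℝ → ℝ) (f : ℕ → ℝ → ℝ) (τ : ℝ),
      ContDiffOn ℝ 1 g U → (∀ x ∈ U, 1 < g x) → (∀ x ∈ U, deriv g x ≠ 0) →
      ContinuousOn r U → (∀ x ∈ U, r x ≠ 0) → (∀ n, DifferentiableOn ℝ (f n) U) →
      TendstoLocallyUniformlyOn (fun (n : ℕ) x => deriv (f n) x / ((n : ℝ) ^ τ * g x ^ n)) r atTop U →
      ∀ S : Set ℕ, ∀ᵐ x ∂μ, x ∈ U → ∀ Q : Polynomial ℝ, ∀ u v : ℝ, 0 ≤ u → u ≤ v → v ≤ 1 →
        Tendsto (fun N : ℕ => ((count S (fun n => f n x + Q.eval (n : ℝ)) u v N : ℝ) -
          (v - u) * size S N) / N) atTop (𝓝 0)) := by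
  refine ⟨?_, ?_, ?_⟩
  · intro y
    filter_upwards [T3H29.HK.mainPow T3H29.HK.p_RED T3H29.HK.p_AVG T3H29.HK.t_DER T3H29.HK.t_LEV T3H29.HK.t_ATM
      T3H29.HK.t_DIF T3H29.HK.t_EXA b hb μ hμ h hh hent y] with x hx h1 p hp Q u v hu huv hv
    refine (hx h1 p hp Q u v hu huv.le hv).congr fun N => ?_
    unfold count
    simp only [Set.mem_univ, true_and]
  · intro β y hβ
    filter_upwards [T3H29.HK.mainExp T3H29.HK.p_RED T3H29.HK.p_AVG T3H29.HK.t_DER T3H29.HK.t_LEV T3H29.HK.t_ATM
      T3H29.HK.t_DIF T3H29.HK.t_EXA b hb μ hμ h hh hent β y hβ] with x hx h1 Q u v hu huv hv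
    refine (hx h1 Q u v hu huv.le hv).congr fun N => ?_
    unfold count
    simp only [Set.mem_univ, true_and]
  · intro U hU g r f τ hg hg1 hg' hr hr0 hf hlim S
    exact T3H29.HK.main T3H29.HK.p_RED T3H29.HK.p_AVG T3H29.HK.t_DER T3H29.HK.t_LEV T3H29.HK.t_ATM
      T3H29.HK.t_DIF b hb μ hμ h hh hent U hU g r f τ hg hg1 hg' hr hr0 hf hlim S

end Pool.Agent.Results.MP_9056e9_nt.KoksmaPositiveEntropy
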