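import Pool.Agent.T3H29.SS.Fin
import Pool.Agent.T3H29.SS.T_SMK
import Pool.Agent.T3H29.SS.T_SPL
import Pool.Agent.T3H29.SS.T_XB
import Pool.Agent.T3H29.SS.T_STP
import Pool.Agent.T3H29.SS.T_GME
import Pool.Agent.T3H29.SS.T_COR
import Pool.Agent.T3H29.SS.T_WEY
import Pool.Agent.T3H29.SS.T_EQD
import Pool.Agent.T3H29.SS.T_CNT
import Pool.Agent.T3H29.SS.T_WIE
import Pool.Agent.T3H29.SS.T_LAW
import Pool.Agent.T3H29.SS.T_NAT
import Pool.Agent.T3H29.SS.T_IRR

/-!
# Self-similar measures and real bases, in particular the bases `e` and `π`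

Let `μ` be a self-similar measure on the line: `μ = ∑ p_i f_i μ` with finitely many contracting similarities
`f_i(x) = r_i x + τ_i`, `0 < |r_i| < 1`, and weights `p_i > 0` of sum `1`. No separation condition is assumed; the only
condition is that the `f_i` do not all have the same fixed point. Let `β > 1` be a real number such that
`log |r_i| / log β` is irrational for at least one `i`. Then for `μ`-almost every `x` the sequence `(β ^ n x)` is
equidistributed modulo one, and more generally `(a_n x + c_n + Q(n))` is, for real numbers `a_n ∼ t β ^ n`, arbitrary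
real numbers `c_n` and all real polynomials `Q`, also along an arbitrary set `S`. If one of the ratios `r_i` is
algebraic (for instance for all the usual Cantor measures), the condition holds for all the bases `e ^ q` and `π ^ q`,
`q > 0` rational. So `(t (x + y) e ^ n)` and `(t (x + y) π ^ n)` are equidistributed for `μ`-almost all `x`; the question
of the problem is the case `t (x + y) = 1`. For Pisot numbers `β` the theorem is due to Hochman and Shmerkin (2015) and,
in this generality, to Algom, Baker and Shmerkin (2022).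

Proof (`Pool/Agent/T3H29/SS`). `μ` is the law of the random series `X = ∑ R_n τ(ω_n)`, `R_n = r(ω_0) ⋯ r(ω_(n-1))`. For
`T = |t| β ^ (n-K)` let `m` be the first index with `|R_m| T ≤ 1`. The differences of `e(a_n X)` and its conditional
expectation given `ω_0, …, ω_(m-1)` are nearly orthogonal and satisfy a law of large numbers with bounded weights, and
the conditional expectation has the absolute value `|μ^(a_n R_m)|`. The numbers `log |R_m|` are equidistributed modulo
`log β`, so that the mean of these absolute values is at most a constant times the integral of `|μ^(β ^ K e ^ v)|` over a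
bounded interval of `v`, which tends to zero for `K → ∞` by Wiener's theorem. The polynomials come from the inequality of
van der Corput. (helper29; the tasks were proved by helpers 12, 16, 24, 32, 42, 45, 68 and 71)
-/

set_option autoImplicit false

namespace Pool.Agent.Results.MP_9056e9_nt.SelfSimilarRealBases

open Finset MeasureTheory Filter Topology
open scoped Classical

/-- the number of the `n ≤ N`, `n ≥ 1`, in `S` with fractional part of `f n` in `[u, v)` -/
noncomputable def count (S : Set ℕ) (f : ℕ → ℝ) (u v : ℝ) (N : ℕ) : ℕ :=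
  ((Icc 1 N).filter (fun n : ℕ => n ∈ S ∧ Int.fract (f n) ∈ Set.Ico u v)).card

/-- the number of the `n ≤ N`, `n ≥ 1`, in `S` -/
noncomputable def size (S : Set ℕ) (N : ℕ) : ℕ := ((Icc 1 N).filter (fun n : ℕ => n ∈ S)).card

/-- `f 1, f 2, …` is equidistributed modulo one -/
def Equidistributed (f : ℕ → ℝ) : Prop :=
  ∀ u v : ℝ, 0 ≤ u → u < v → v ≤ 1 →
    Tendsto (fun N : ℕ => (count Set.univ f u v N : ℝ) / N) atTop (𝓝 (v - u))

/-- **Self-similar measures and real bases.** Let `μ` be a self-similar probability measure of the maps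
`x ↦ r_i x + τ_i`, `0 < |r_i| < 1`, with weights `p_i > 0`; the maps do not all have the same fixed point.
(1) Let `β > 1` be real, `log |r_i| / log β` irrational for some `i`, `a_n ∼ t β ^ n` with `t ≠ 0`, `c_n` arbitrary real
numbers and `S` a set of positive integers. Then for almost all `x` and all real polynomials `Q` the sequence
`a_n x + c_n + Q(n)` is equidistributed modulo one along `S`.
(2) If some `r_i` is algebraic, then for all real `y`, `t ≠ 0`, for almost all `x` the sequences
`t (x + y) e ^ (q n) + Q(n)` and `t (x + y) π ^ (q n) + Q(n)` are equidistributed modulo one for all rational `q > 0` and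
all real polynomials `Q`. -/
theorem result (k : ℕ) (r τ p : Fin k → ℝ) (hr0 : ∀ i, r i ≠ 0) (hr1 : ∀ i, |r i| < 1) (hp : ∀ i, 0 < p i)
    (hps : ∑ i, p i = 1) (hfix : ∃ i j, τ i / (1 - r i) ≠ τ j / (1 - r j))
    (μ : Measure ℝ) [IsProbabilityMeasure μ]
    (hμ : μ = ∑ i, ENNReal.ofReal (p i) • μ.map (fun x => r i * x + τ i)) :
    (∀ β : ℝ, 1 < β → (∃ i, Irrational (Real.log |r i| / Real.log β)) → ∀ t : ℝ, t ≠ 0 → ∀ a c : ℕ → ℝ,
      Tendsto (fun n : ℕ => a n / β ^ n) atTop (𝓝 t) → ∀ S : Set ℕ,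
      ∀ᵐ x ∂μ, ∀ Q : Polynomial ℝ, ∀ u v : ℝ, 0 ≤ u → u ≤ v → v ≤ 1 →
        Tendsto (fun N : ℕ => ((count S (fun n => a n * x + c n + Q.eval (n : ℝ)) u v N : ℝ) -
          (v - u) * size S N) / N) atTop (𝓝 0)) ∧
    ((∃ i, IsAlgebraic ℚ (r i)) → ∀ y t : ℝ, t ≠ 0 → ∀ᵐ x ∂μ, ∀ q : ℚ, 0 < q → ∀ Q : Polynomial ℝ,
      Equidistributed (fun n => t * (x + y) * Real.exp (q * n) + Q.eval (n : ℝ)) ∧
      Equidistributed (fun n => t * (x + y) * Real.pi ^ ((q : ℝ) * n) + Q.eval (n : ℝ))) := by
  have first : ∀ β : ℝ, 1 < β → (∃ i, Irrational (Real.log |r i| / Real.log β)) → ∀ t : ℝ, t ≠ 0 → ∀ a c : ℕ → ℝ,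
      Tendsto (fun n : ℕ => a n / β ^ n) atTop (𝓝 t) → ∀ S : Set ℕ,
      ∀ᵐ x ∂μ, ∀ Q : Polynomial ℝ, ∀ u v : ℝ, 0 ≤ u → u ≤ v → v ≤ 1 →
        Tendsto (fun N : ℕ => ((count S (fun n => a n * x + c n + Q.eval (n : ℝ)) u v N : ℝ) -
          (v - u) * size S N) / N) atTop (𝓝 0) := by
    intro β hβ hirr t ht a c ha S
    exact T3H29.SS.main ⟨r, τ, p, hr0, hr1, hp, hps⟩ T3H29.SS.t_SMK T3H29.SS.t_SPL T3H29.SS.t_XB T3H29.SS.t_STP
      T3H29.SS.t_GME T3H29.SS.COR.t_COR T3H29.SS.t_WEY T3H29.SS.EQD.t_EQD T3H29.SS.t_CNT T3H29.SS.t_WIE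
      T3H29.SS.t_LAW T3H29.SS.t_NAT μ hμ hfix β t hβ ht hirr a c ha S
  refine ⟨first, ?_⟩
  rintro ⟨i₀, halg⟩
  -- equidistribution in the sense of the problem for a single base
  have second : ∀ β : ℝ, 1 < β → (∃ i, Irrational (Real.log |r i| / Real.log β)) → ∀ y t : ℝ, t ≠ 0 →
      ∀ᵐ x ∂μ, ∀ Q : Polynomial ℝ, Equidistributed (fun n => t * (x + y) * β ^ n + Q.eval (n : ℝ)) := by
    intro β hβ hirr y t ht
    have hβ0 : ∀ n : ℕ, β ^ n ≠ 0 := fun n => (pow_pos (by linarith) n).ne'
    have h1 : Tendsto (fun n : ℕ => (fun n : ℕ => t * β ^ n) n / β ^ n) atTop (𝓝 t) := by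
      refine tendsto_const_nhds.congr fun n => ?_
      have := hβ0 n
      field_simp
    filter_upwards [first β hβ hirr t ht (fun n => t * β ^ n) (fun n => t * y * β ^ n) h1 Set.univ] with x hx
    intro Q u v hu huv hv
    have h2 := hx Q u v hu huv.le hv
    have h3 : Tendsto (fun N : ℕ => ((count Set.univ (fun n => (fun n : ℕ => t * β ^ n) n * x +
        (fun n : ℕ => t * y * β ^ n) n + Q.eval (n : ℝ)) u v N : ℝ) - (v - u) * size Set.univ N) / N + (v - u))
        atTop (𝓝 (0 + (v - u))) := h2.add_const _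
    rw [zero_add] at h3
    refine h3.congr' ?_
    filter_upwards [eventually_gt_atTop 0] with N hN
    have hN0 : (N : ℝ) ≠ 0 := by exact_mod_cast hN.ne'
    have h4 : (size Set.univ N : ℝ) = N := by
      unfold size
      simp
    have h5 : (fun n : ℕ => (fun n : ℕ => t * β ^ n) n * x + (fun n : ℕ => t * y * β ^ n) n + Q.eval (n : ℝ)) =
        fun n : ℕ => t * (x + y) * β ^ n + Q.eval (n : ℝ) := by
      funext n
      ring
    rw [h4, h5]
    field_simp
    ring
  have habs : IsAlgebraic ℚ |r i₀| := by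
    rcases abs_choice (r i₀) with h | h
    · rw [h]; exact halg
    · rw [h]; exact halg.neg
  have hab0 : 0 < |r i₀| := abs_pos.2 (hr0 i₀)
  have hab1 : |r i₀| ≠ 1 := (hr1 i₀).ne
  intro y t ht
  have hall : ∀ᵐ x ∂μ, ∀ q : ℚ, 0 < q →
      (∀ Q : Polynomial ℝ, Equidistributed (fun n => t * (x + y) * Real.exp q ^ n + Q.eval (n : ℝ))) ∧
      (∀ Q : Polynomial ℝ, Equidistributed (fun n => t * (x + y) * (Real.pi ^ (q : ℝ)) ^ n + Q.eval (n : ℝ))) := by
    rw [ae_all_iff]
    intro q
    by_cases hq : 0 < q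
    · have hq0 : (0 : ℝ) < q := by exact_mod_cast hq
      have hpi : 1 < Real.pi := by linarith [Real.pi_gt_three]
      obtain ⟨i1, i2⟩ := T3H29.SS.t_IRR |r i₀| q hab0 hab1 habs hq
      filter_upwards [second (Real.exp q) (Real.one_lt_exp_iff.2 hq0) ⟨i₀, i1⟩ y t ht,
        second (Real.pi ^ (q : ℝ)) (Real.one_lt_rpow hpi hq0) ⟨i₀, i2⟩ y t ht] with x h1 h2 _
      exact ⟨h1, h2⟩
    · exact Eventually.of_forall fun x h1 => absurd h1 hq
  filter_upwards [hall] with x hx q hq Q
  obtain ⟨h1, h2⟩ := hx q hq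
  constructor
  · have h3 : (fun n : ℕ => t * (x + y) * Real.exp (q * n) + Q.eval (n : ℝ)) =
        fun n : ℕ => t * (x + y) * Real.exp q ^ n + Q.eval (n : ℝ) := by
      funext n
      rw [← Real.exp_nat_mul, mul_comm (n : ℝ) (q : ℝ)]
    rw [h3]
    exact h1 Q
  · have h3 : (fun n : ℕ => t * (x + y) * Real.pi ^ ((q : ℝ) * n) + Q.eval (n : ℝ)) =
        fun n : ℕ => t * (x + y) * (Real.pi ^ (q : ℝ)) ^ n + Q.eval (n : ℝ) := by
      funext n
      rw [Real.rpow_mul Real.pi_pos.le, Real.rpow_natCast]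
    rw [h3]
    exact h2 Q

end Pool.Agent.Results.MP_9056e9_nt.SelfSimilarRealBases
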